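import Pool.Agent.W2helper31.HS.Main

/-!
# The `h*`-vector of the hypersimplex `Δ_{k,n}` is unimodal for `min (k, n - k) ≤ n / (400 log₂ (2 n))`

`L t` is the number of the lattice points of the dilated hypersimplex `t Δ_{k,n}`, that is of the
points `x` in `{0, ..., t} ^ n` with the sum `k t`, and `h` is the `h*`-vector:
`h i = ∑ j, (-1) ^ j C(n, j) L (i - j)`.  If `400 min (k, n - k) (⌊log₂ n⌋ + 1) ≤ n` then
`h 0, ..., h (n - 1)` rise weakly to a peak and then fall weakly.  In particular for each `k` the
sequence is unimodal for all but finitely many `n`, and the same is true with `k` and `n - k`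
exchanged.

Proof.  Write `W m n x` for the coefficient of `y ^ x` in `(1 + y + ... + y ^ (m - 1)) ^ n`.  Then
`h d = ∑ i < k, (-1) ^ i C(n, i) W (k - i) n ((k - i) d - i)`.  The term with `i = 0` is symmetric
and unimodal in `d`; the differences `h (d + 1) - h d` are the alternating sums of differences of
coefficients of `(1 + ... + y ^ (k - i - 1)) ^ E` for the even number `E` among `n`, `n + 1`.  The
difference for `i = 0` is bounded from below relative to the coefficient (at the centre by a sum of
squares, elsewhere by log-concavity), and the terms with `i ≥ 1` are exponentially smaller, except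
for `d < log₂ n`; for these `d` the number of the lattice points grows so fast
(`L (t + 1) ≥ 2 (n + 1) L t`, adding the indicator functions of the `k`-subsets) that
`h d ≤ h (d + 1)`.
-/

set_option autoImplicit false

namespace Pool.Agent.Results.MP_31bda2_co.NearLinearRange

theorem result :
    ∀ n k : ℕ, 0 < k → k < n → 400 * min k (n - k) * (Nat.log 2 n + 1) ≤ n →
    ∀ L : ℕ → ℕ,
      (∀ t : ℕ, L t = ((Finset.univ : Finset (Fin n → Fin (t + 1))).filter
          (fun x => ∑ i, (x i : ℕ) = k * t)).card) →
    ∀ h : ℕ → ℤ,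
      (∀ i : ℕ, h i = ∑ j ∈ Finset.range (i + 1),
          (-1 : ℤ) ^ j * (n.choose j : ℤ) * (L (i - j) : ℤ)) →
    ∃ m : ℕ, m ≤ n - 1 ∧
      (∀ i j : ℕ, i ≤ j → j ≤ m → h i ≤ h j) ∧
      (∀ i j : ℕ, m ≤ i → i ≤ j → j ≤ n - 1 → h j ≤ h i) :=
  fun _ _ hk hkn hn _ hL _ hh => Pool.Agent.W2helper31.HS.unimodal hk hkn hn hL hh

end Pool.Agent.Results.MP_31bda2_co.NearLinearRange
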